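import Pool.Agent.Helper54.SRD.Basic

/-!
# Packet SRD-DB1: the lemma of du Bois-Reymond for covector valued functions
-/

open Set Filter MeasureTheory
open scoped Manifold ContDiff Topology

noncomputable section

namespace Pool.Agent.Helper12.SRD

open Pool.Agent.Helper54.SRD

/-- A smooth compactly supported scalar function with integral zero is the derivative of a smooth
compactly supported function with support in the same interval. -/
theorem exists_primitive {a b : ℝ} (hab : a < b) (g : ℝ → ℝ) (hg : ContDiff ℝ ∞ g)
    (hgc : HasCompactSupport g) (hgs : tsupport g ⊆ Ioo a b) (hI : ∫ t, g t = 0) :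
    ∃ V : ℝ → ℝ, ContDiff ℝ ∞ V ∧ HasCompactSupport V ∧ tsupport V ⊆ Ioo a b ∧ deriv V = g := by
  obtain ⟨a', b', haa', hbb', hsub⟩ : ∃ a' b' : ℝ, a < a' ∧ b' < b ∧ tsupport g ⊆ Icc a' b' := by
    rcases (tsupport g).eq_empty_or_nonempty with h | h
    · refine ⟨(a + b) / 2, (a + b) / 2, by linarith, by linarith, by simp [h]⟩
    · obtain ⟨m, hm, hm'⟩ := (show IsCompact (tsupport g) from hgc).exists_isLeast h
      obtain ⟨M, hM, hM'⟩ := (show IsCompact (tsupport g) from hgc).exists_isGreatest h
      exact ⟨m, M, (hgs hm).1, (hgs hM).2, fun x hx => ⟨hm' hx, hM' hx⟩⟩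
  have hzero : ∀ x, x ∉ Icc a' b' → g x = 0 := fun x hx =>
    image_eq_zero_of_notMem_tsupport (fun h => hx (hsub h))
  have hgcont : Continuous g := hg.continuous
  set V : ℝ → ℝ := fun t => ∫ s in a..t, g s with hV
  have hder : ∀ t, HasDerivAt V (g t) t := fun t =>
    intervalIntegral.integral_hasDerivAt_right (hgcont.intervalIntegrable _ _)
      (hgcont.stronglyMeasurableAtFilter _ _) hgcont.continuousAt
  have hdV : deriv V = g := funext fun t => (hder t).deriv
  have hVsm : ContDiff ℝ ∞ V := by
    rw [contDiff_infty_iff_deriv]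
    exact ⟨fun t => (hder t).differentiableAt, by rw [hdV]; exact hg⟩
  have hVz : ∀ t, t ∉ Icc a' b' → V t = 0 := by
    intro t ht
    by_cases h1 : t < a'
    · have : V t = ∫ s in a..t, (0 : ℝ) := by
        apply intervalIntegral.integral_congr
        intro x hx
        have hx2 : x ≤ max a t := hx.2
        apply hzero
        intro hx3
        have := lt_of_le_of_lt hx2 (max_lt haa' h1)
        exact absurd hx3.1 (not_le.mpr this)
      simpa using this
    · have h2 : b' < t := by
        by_contra h
        exact ht ⟨not_lt.mp h1, not_lt.mp h⟩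
      have : V t = ∫ s, g s := by
        apply intervalIntegral.integral_eq_integral_of_support_subset
        intro x hx
        have hx' : x ∈ Icc a' b' := by
          by_contra h
          exact hx (hzero x h)
        exact ⟨lt_of_lt_of_le haa' hx'.1, hx'.2.trans h2.le⟩
      rw [this, hI]
  have hsupp : tsupport V ⊆ Icc a' b' := by
    apply closure_minimal _ isClosed_Icc
    intro x hx
    by_contra h
    exact hx (hVz x h)
  exact ⟨V, hVsm, HasCompactSupport.intro isCompact_Icc hVz,
    hsupp.trans (fun x hx => ⟨lt_of_lt_of_le haa' hx.1, lt_of_le_of_lt hx.2 hbb'⟩), hdV⟩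

theorem db1 (E : Type*) [NormedAddCommGroup E] [NormedSpace ℝ E] [FiniteDimensional ℝ E] :
    S_DB1 E := by
  intro a b P K hab hPm hPK hP
  have hPint : IntegrableOn P (Ioo a b) volume := by
    refine Integrable.of_bound hPm K ?_
    filter_upwards [ae_restrict_mem measurableSet_Ioo] with t ht using hPK t ht
  -- the bump
  set c0 : ℝ := (a + b) / 2
  let f : ContDiffBump c0 := ⟨(b - a) / 8, (b - a) / 4, by linarith, by linarith⟩
  set ρ : ℝ → ℝ := f.normed volume with hρ
  have hρsm : ContDiff ℝ ∞ ρ := f.contDiff_normed
  have hρc : HasCompactSupport ρ := f.hasCompactSupport_normed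
  have hρs : tsupport ρ ⊆ Ioo a b := by
    rw [hρ, f.tsupport_normed_eq, Real.closedBall_eq_Icc]
    intro x hx
    have h1 := hx.1
    have h2 := hx.2
    change c0 - (b - a) / 4 ≤ x at h1
    change x ≤ c0 + (b - a) / 4 at h2
    simp only [c0] at h1 h2
    constructor <;> linarith
  have hρI : ∫ t, ρ t = 1 := f.integral_normed
  set c : E →L[ℝ] ℝ := ∫ t in Ioo a b, ρ t • P t with hc
  have hsmul : ∀ φ : ℝ → ℝ, Continuous φ → HasCompactSupport φ →
      IntegrableOn (fun t => φ t • P t) (Ioo a b) volume := by
    intro φ hφ hφc
    obtain ⟨C, hC⟩ := hφ.bounded_above_of_compact_support hφc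
    exact Integrable.bdd_smul hPint C hφ.aestronglyMeasurable.restrict (ae_of_all _ hC)
  refine ⟨c, ?_⟩
  have key := IsOpen.ae_eq_zero_of_integral_contDiff_smul_eq_zero (μ := volume) (f := fun t => P t - c)
    (isOpen_Ioo (a := a) (b := b)) ?_ ?_
  · rw [ae_restrict_iff' measurableSet_Ioo]
    filter_upwards [key] with t ht h
    exact sub_eq_zero.mp (ht h)
  · apply IntegrableOn.locallyIntegrableOn
    exact hPint.sub (by simp)
  · intro φ hφ hφc hφs
    have hφcont := hφ.continuous
    have hρcont := hρsm.continuous
    have e1 : ∫ t, φ t • (P t - c) = ∫ t in Ioo a b, φ t • (P t - c) := by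
      symm
      apply setIntegral_eq_integral_of_forall_compl_eq_zero
      intro x hx
      rw [image_eq_zero_of_notMem_tsupport (fun h => hx (hφs h)), zero_smul]
    have e2 : ∫ t in Ioo a b, φ t • (P t - c) =
        (∫ t in Ioo a b, φ t • P t) - (∫ t in Ioo a b, φ t) • c := by
      have e4 : ∫ t in Ioo a b, φ t • c = (∫ t in Ioo a b, φ t) • c :=
        _root_.integral_smul_const φ c
      have e5 : IntegrableOn (fun t => φ t • c) (Ioo a b) volume :=
        Integrable.smul_const (hφcont.integrable_of_hasCompactSupport hφc).integrableOn c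
      rw [← e4, ← integral_sub (hsmul φ hφcont hφc) e5]
      simp only [smul_sub]
    have e3 : ∫ t in Ioo a b, φ t = ∫ t, φ t := by
      apply setIntegral_eq_integral_of_forall_compl_eq_zero
      intro x hx
      exact image_eq_zero_of_notMem_tsupport (fun h => hx (hφs h))
    set I := ∫ t, φ t with hI
    rw [e1, e2, e3]
    ext u
    -- the test function
    set g : ℝ → ℝ := fun t => φ t - I * ρ t with hg
    have hgsm : ContDiff ℝ ∞ g := hφ.sub (contDiff_const.mul hρsm)
    have hgs' : tsupport g ⊆ tsupport φ ∪ tsupport ρ := by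
      apply closure_minimal _ (isClosed_closure.union isClosed_closure)
      intro x hx
      by_contra h
      rw [mem_union, not_or] at h
      apply hx
      simp only [hg]
      rw [image_eq_zero_of_notMem_tsupport h.1, image_eq_zero_of_notMem_tsupport h.2]
      simp
    have hgs : tsupport g ⊆ Ioo a b := hgs'.trans (union_subset hφs hρs)
    have hgc : HasCompactSupport g :=
      IsCompact.of_isClosed_subset (hφc.isCompact.union hρc.isCompact) isClosed_closure hgs'
    have hgI : ∫ t, g t = 0 := by
      simp only [hg]
      rw [integral_sub (hφcont.integrable_of_hasCompactSupport hφc)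
        ((hρcont.integrable_of_hasCompactSupport hρc).const_mul I), integral_const_mul, hρI]
      simp [hI]
    obtain ⟨V, hV, hVc, hVs, hVd⟩ := exists_primitive hab g hgsm hgc hgs hgI
    have hVu : ContDiff ℝ ∞ (fun t => V t • u) := hV.smul contDiff_const
    have hVus : tsupport (fun t => V t • u) ⊆ tsupport V := by
      apply closure_mono
      intro x hx h
      apply hx
      simp only [h, zero_smul]
    have h0 := hP (fun t => V t • u) hVu
      (IsCompact.of_isClosed_subset hVc isClosed_closure hVus) (hVus.trans hVs)
    have hdu : ∀ t, deriv (fun t => V t • u) t = g t • u := by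
      intro t
      have h1 : HasDerivAt V (g t) t := by
        rw [← hVd]
        exact (hV.differentiable (by simp) t).hasDerivAt
      exact (h1.smul_const u).deriv
    rw [intervalIntegral.integral_of_le hab.le, integral_Ioc_eq_integral_Ioo] at h0
    have h1 : ∫ t in Ioo a b, (φ t • P t - I • (ρ t • P t)) u = 0 := by
      rw [← h0]
      apply integral_congr_ae
      filter_upwards with t
      rw [hdu]
      simp only [hg, sub_apply, smul_apply, smul_eq_mul, map_smul]
      ring
    have hint1 := hsmul φ hφcont hφc
    have hint2 : IntegrableOn (fun t => I • (ρ t • P t)) (Ioo a b) volume :=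
      (hsmul ρ hρcont hρc).smul I
    have h2 : ∫ t in Ioo a b, (φ t • P t - I • (ρ t • P t)) u =
        (∫ t in Ioo a b, (φ t • P t - I • (ρ t • P t))) u :=
      (ContinuousLinearMap.integral_apply (hint1.sub hint2) u).symm
    rw [h2, integral_sub hint1 hint2, integral_smul] at h1
    simpa using h1

end Pool.Agent.Helper12.SRD
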